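import Pool.Agent.Y891.GP.AfeB

set_option autoImplicit false

/-!
Project GP: the smooth approximate functional equation for `|ζ(1/2+iu)|²`.
-/

namespace Pool.Agent.Y891.GP

open Complex Filter Topology MeasureTheory Set
open Pool.Agent.Y969.GP

/-- term of the double series -/
noncomputable def Ft (u c : ℝ) (p : ℕ × ℕ) (t : ℝ) : ℂ :=
  (1 / (p.1 : ℂ) ^ (1 / 2 + I * u + (c + I * t))) * (1 / (p.2 : ℂ) ^ (1 / 2 - I * u + (c + I * t))) *
    (cexp ((c + I * t) ^ 2) * cexp ((c + I * t) * (Real.log (u / (2 * Real.pi)) : ℝ)) /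
      (c + I * t))

theorem re1 (u c t : ℝ) : (1 / 2 + I * u + (c + I * t) : ℂ).re = 1 / 2 + c := by simp

theorem re2 (u c t : ℝ) : (1 / 2 - I * u + (c + I * t) : ℂ).re = 1 / 2 + c := by simp

theorem F0_tsum (u c t : ℝ) (hc : 1 / 2 < c) : ∑' p : ℕ × ℕ, Ft u c p t = F0 u c t := by
  have h1 : 1 < (1 / 2 + I * u + (c + I * t) : ℂ).re := by rw [re1]; linarith
  have h2 : 1 < (1 / 2 - I * u + (c + I * t) : ℂ).re := by rw [re2]; linarith
  have s1 := (Complex.summable_one_div_nat_cpow.2 h1).norm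
  have s2 := (Complex.summable_one_div_nat_cpow.2 h2).norm
  unfold Ft F0
  rw [tsum_mul_right, ← tsum_mul_tsum_of_summable_norm s1 s2, ← zeta_eq_tsum_one_div_nat_cpow h1,
    ← zeta_eq_tsum_one_div_nat_cpow h2]
  ring

theorem Ft_zero (u c : ℝ) (hc : 0 < c) (p : ℕ × ℕ) (hp : p.1 = 0 ∨ p.2 = 0) (t : ℝ) :
    Ft u c p t = 0 := by
  have h1 : (1 / 2 + I * u + (c + I * t) : ℂ) ≠ 0 := by
    intro h
    have := congrArg Complex.re h
    rw [re1, zero_re] at this
    linarith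
  have h2 : (1 / 2 - I * u + (c + I * t) : ℂ) ≠ 0 := by
    intro h
    have := congrArg Complex.re h
    rw [re2, zero_re] at this
    linarith
  unfold Ft
  rcases hp with h | h
  · rw [h, Nat.cast_zero, Complex.zero_cpow h1]
    simp
  · rw [h, Nat.cast_zero, Complex.zero_cpow h2]
    simp

theorem Ft_norm (u c t : ℝ) (hu : 1 ≤ u) (hc : 0 < c) (p : ℕ × ℕ) :
    ‖Ft u c p t‖ ≤ (1 / (p.1 : ℝ) ^ (1 / 2 + c)) * (1 / (p.2 : ℝ) ^ (1 / 2 + c)) *
      (Real.exp (c ^ 2) * u ^ c / c * Real.exp (-(1 / 2) * t ^ 2)) := by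
  unfold Ft
  rw [norm_mul, norm_mul, norm_term _ _ (by rw [re1]; linarith),
    norm_term _ _ (by rw [re2]; linarith), re1, re2, norm_div, norm_mul, norm_gs]
  have h3 := norm_pw u c t hu hc
  have h4 := line_norm c hc t
  have h5 := exp_le_half c t
  have h6 : 0 ≤ u ^ c := by positivity
  apply mul_le_mul_of_nonneg_left _ (by positivity)
  calc Real.exp (c ^ 2 - t ^ 2) *
      ‖cexp ((c + I * t) * (Real.log (u / (2 * Real.pi)) : ℝ))‖ / ‖(c : ℂ) + I * t‖
      ≤ (Real.exp (c ^ 2) * Real.exp (-(1 / 2) * t ^ 2)) * u ^ c / c := by gcongr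
    _ = _ := by ring

theorem one_div_cpw (n : ℕ) (hn : n ≠ 0) (s : ℂ) :
    1 / (n : ℂ) ^ s = cexp (-(s * (Real.log n : ℝ))) := by
  have c1 : (n : ℂ) ≠ 0 := by exact_mod_cast hn
  rw [Complex.cpow_def_of_ne_zero c1, ← Complex.natCast_log, one_div, ← Complex.exp_neg, mul_comm s]

/-- factorisation of the terms -/
theorem Ft_eq (u c t : ℝ) (hu : 0 < u) (p : ℕ × ℕ) (h1 : p.1 ≠ 0) (h2 : p.2 ≠ 0) :
    Ft u c p t = ((((√(ht p))⁻¹ : ℝ) : ℂ) * cexp (I * ((u * lam p : ℝ) : ℂ))) *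
      (cexp (-((c + I * t) * (Real.log (2 * Real.pi * ht p / u) : ℝ))) *
        cexp ((c + I * t) ^ 2) / (c + I * t)) := by
  have m0 : (0 : ℝ) < p.1 := by exact_mod_cast Nat.pos_of_ne_zero h1
  have k0 : (0 : ℝ) < p.2 := by exact_mod_cast Nat.pos_of_ne_zero h2
  have c1 : ((p.1 : ℕ) : ℂ) ≠ 0 := by exact_mod_cast h1
  have c2 : ((p.2 : ℕ) : ℂ) ≠ 0 := by exact_mod_cast h2
  have hpi := Real.pi_pos
  have hh : 0 < ht p := by unfold ht; positivity
  have hlx : Real.log (2 * Real.pi * ht p / u) =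
      Real.log p.1 + Real.log p.2 - Real.log (u / (2 * Real.pi)) := by
    have e : 2 * Real.pi * ht p / u = (p.1 * p.2) / (u / (2 * Real.pi)) := by
      unfold ht
      field_simp
    rw [e, Real.log_div (by positivity) (by positivity), Real.log_mul m0.ne' k0.ne']
  have hsq : (((√(ht p))⁻¹ : ℝ) : ℂ) =
      cexp (-(1 / 2) * ((Real.log p.1 : ℝ) + (Real.log p.2 : ℝ))) := by
    have e : (√(ht p))⁻¹ = Real.exp (-(1 / 2) * (Real.log p.1 + Real.log p.2)) := by
      rw [← Real.log_mul m0.ne' k0.ne', neg_mul, Real.exp_neg, Real.sqrt_eq_rpow,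
        Real.rpow_def_of_pos hh, mul_comm (1 / 2 : ℝ)]
      rfl
    rw [e, ofReal_exp]
    congr 1
    push_cast
    ring
  have key : cexp (-((1 / 2 + I * u + (c + I * t)) * (Real.log p.1 : ℝ))) *
      cexp (-((1 / 2 - I * u + (c + I * t)) * (Real.log p.2 : ℝ))) *
      (cexp ((c + I * t) ^ 2) * cexp ((c + I * t) * (Real.log (u / (2 * Real.pi)) : ℝ))) =
      cexp (-(1 / 2) * ((Real.log p.1 : ℝ) + (Real.log p.2 : ℝ))) *
      cexp (I * ((u * lam p : ℝ) : ℂ)) *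
      (cexp (-((c + I * t) * ((Real.log p.1 + Real.log p.2 - Real.log (u / (2 * Real.pi)) : ℝ) : ℂ))) *
        cexp ((c + I * t) ^ 2)) := by
    rw [← Complex.exp_add, ← Complex.exp_add, ← Complex.exp_add, ← Complex.exp_add,
      ← Complex.exp_add, ← Complex.exp_add]
    congr 1
    unfold lam
    push_cast
    ring
  unfold Ft
  rw [hsq, hlx, one_div_cpw _ h1, one_div_cpw _ h2, ← mul_div_assoc, ← mul_div_assoc, key]

theorem Ft_int (u c : ℝ) (hu : 1 ≤ u) (hc : 0 < c) (p : ℕ × ℕ) : Integrable (Ft u c p) := by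
  by_cases hp : p.1 = 0 ∨ p.2 = 0
  · have : Ft u c p = fun _ => 0 := funext fun t => Ft_zero u c hc p hp t
    rw [this]
    exact integrable_zero _ _ _
  · push Not at hp
    have hcont : Continuous (Ft u c p) := by
      have e : Ft u c p = fun t : ℝ => ((((√(ht p))⁻¹ : ℝ) : ℂ) * cexp (I * ((u * lam p : ℝ) : ℂ))) *
          (cexp (-((c + I * t) * (Real.log (2 * Real.pi * ht p / u) : ℝ))) *
          cexp ((c + I * t) ^ 2) / (c + I * t)) := funext fun t =>
        Ft_eq u c t (by linarith) p hp.1 hp.2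
      rw [e]
      exact continuous_const.mul (Continuous.div (by fun_prop) (by fun_prop)
        (fun t => line_ne c hc t))
    exact Integrable.mono' (((integrable_exp_neg_mul_sq
      (show (0 : ℝ) < 1 / 2 by norm_num)).const_mul _).const_mul _)
      hcont.aestronglyMeasurable (Eventually.of_forall fun t => Ft_norm u c t hu hc p)

theorem Ft_val (hV : S_V) (u c : ℝ) (hu : 1 ≤ u) (hc : 0 < c) (p : ℕ × ℕ) :
    ∫ t : ℝ, Ft u c p t =
      (Real.pi : ℂ) * ((co p u : ℂ) * cexp (I * ((u * lam p : ℝ) : ℂ))) := by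
  by_cases hp : p.1 = 0 ∨ p.2 = 0
  · have h0 : ht p = 0 := by
      unfold ht
      rcases hp with h | h <;> rw [h] <;> simp
    have h1 : co p u = 0 := by
      unfold co
      rw [h0, Real.sqrt_zero, inv_zero, mul_zero, zero_mul]
    rw [h1]
    simp [Ft_zero u c hc p hp]
  · push Not at hp
    have hu0 : 0 < u := by linarith
    have hpi := Real.pi_pos
    have m0 : (0 : ℝ) < p.1 := by exact_mod_cast Nat.pos_of_ne_zero hp.1
    have k0 : (0 : ℝ) < p.2 := by exact_mod_cast Nat.pos_of_ne_zero hp.2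
    have hh : 0 < ht p := by unfold ht; positivity
    have h7 := hV.2.2.2.2.2.2 c (2 * Real.pi * ht p / u) hc (by positivity)
    simp only [Ft_eq u c _ hu0 p hp.1 hp.2]
    rw [integral_const_mul]
    have h8 : (∫ t : ℝ, cexp (-((c + I * t) * (Real.log (2 * Real.pi * ht p / u) : ℝ))) *
        cexp ((c + I * t) ^ 2) / (c + I * t)) =
        ((2 * Real.pi : ℝ) : ℂ) * ((V (2 * Real.pi * ht p / u) : ℝ) : ℂ) := by
      rw [h7, ← mul_assoc, mul_inv_cancel₀, one_mul]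
      exact_mod_cast (by positivity : (2 * Real.pi : ℝ) ≠ 0)
    rw [h8]
    unfold co
    push_cast
    ring

/-- the terms of the series for `|ζ|²` -/
noncomputable def TT (u : ℝ) (p : ℕ × ℕ) : ℂ := (co p u : ℂ) * cexp (I * ((u * lam p : ℝ) : ℂ))

theorem partC (hV : S_V) (u c : ℝ) (hu : 1 ≤ u) (hc : 1 / 2 < c) :
    HasSum (TT u) ((Real.pi : ℂ)⁻¹ * ∫ t : ℝ, F0 u c t) := by
  have hc0 : 0 < c := by linarith
  have hs : Summable fun n : ℕ => 1 / (n : ℝ) ^ (1 / 2 + c) :=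
    Real.summable_one_div_nat_rpow.2 (by linarith)
  obtain ⟨G, hG⟩ : ∃ G : ℝ, G = ∫ t : ℝ, Real.exp (c ^ 2) * u ^ c / c *
    Real.exp (-(1 / 2) * t ^ 2) := ⟨_, rfl⟩
  have hgi : Integrable (fun t : ℝ => Real.exp (c ^ 2) * u ^ c / c *
      Real.exp (-(1 / 2) * t ^ 2)) :=
    (integrable_exp_neg_mul_sq (show (0 : ℝ) < 1 / 2 by norm_num)).const_mul _
  have h1 := hasSum_integral_of_summable_integral_norm (fun p => Ft_int u c hu hc0 p) (by
    refine Summable.of_nonneg_of_le (fun p => integral_nonneg fun t => norm_nonneg _)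
      (fun p => ?_) ((hs.mul_of_nonneg hs (fun n => by positivity)
        (fun n => by positivity)).mul_right G)
    calc ∫ t : ℝ, ‖Ft u c p t‖ ≤ ∫ t : ℝ, (1 / (p.1 : ℝ) ^ (1 / 2 + c)) *
          (1 / (p.2 : ℝ) ^ (1 / 2 + c)) *
          (Real.exp (c ^ 2) * u ^ c / c * Real.exp (-(1 / 2) * t ^ 2)) :=
          integral_mono (Ft_int u c hu hc0 p).norm (hgi.const_mul _)
            (fun t => Ft_norm u c t hu hc0 p)
      _ = (1 / (p.1 : ℝ) ^ (1 / 2 + c)) * (1 / (p.2 : ℝ) ^ (1 / 2 + c)) * G := by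
          rw [integral_const_mul, hG])
  simp only [F0_tsum u c _ hc, Ft_val hV u c hu hc0] at h1
  have h2 := h1.mul_left (Real.pi : ℂ)⁻¹
  have hpi : (Real.pi : ℂ) ≠ 0 := by exact_mod_cast Real.pi_ne_zero
  have h3 : (fun p : ℕ × ℕ => (Real.pi : ℂ)⁻¹ * ((Real.pi : ℂ) * ((co p u : ℂ) *
      cexp (I * ((u * lam p : ℝ) : ℂ))))) = TT u := by
    funext p
    rw [inv_mul_cancel_left₀ hpi]
    rfl
  rwa [h3] at h2

/-- truncation -/
theorem partD (hV : S_V) (ε : ℝ) (hε : 0 < ε) (hε' : ε ≤ 1 / 4) : ∃ D : ℝ, 0 < D ∧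
    ∀ (u : ℝ) (X : ℕ) (S : ℂ), 1 ≤ u → u ^ (1 + ε) ≤ X → HasSum (TT u) S →
      ‖S - PX X u‖ ≤ D * u ^ (-(1 / 2) + ε) := by
  obtain ⟨A, hA⟩ : ∃ A : ℝ, A = 3 / (2 * ε) := ⟨_, rfl⟩
  have hA1 : 1 ≤ A := by
    rw [hA, le_div_iff₀ (by positivity)]
    linarith
  have hAε : ε * A = 3 / 2 := by rw [hA]; field_simp
  obtain ⟨C, hC, hVC⟩ := hV.2.2.2.2.2.1 A (by linarith)
  have hZ := ZZ_nonneg (3 / 2)
  refine ⟨2 * C * ZZ (3 / 2) ^ 2 + 1, by positivity, fun u X S hu hX hS => ?_⟩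
  have hu0 : 0 < u := by linarith
  have hX1 : (1 : ℝ) ≤ X := le_trans (Real.one_le_rpow hu (by linarith)) hX
  have hX0 : (0 : ℝ) < X := by linarith
  have h1 : HasSum (fun p => if p ∈ PS X then TT u p else 0) (∑ p ∈ PS X, TT u p) := by
    have h : HasSum (fun p => if p ∈ PS X then TT u p else 0)
        (∑ p ∈ PS X, if p ∈ PS X then TT u p else 0) :=
      hasSum_sum_of_ne_finset_zero (fun p hp => if_neg hp)
    have e : ∑ p ∈ PS X, (if p ∈ PS X then TT u p else 0) = ∑ p ∈ PS X, TT u p :=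
      Finset.sum_congr rfl fun p hp => if_pos hp
    rwa [e] at h
  have h2 := hS.sub h1
  have h3 : PX X u = ∑ p ∈ PS X, TT u p := rfl
  rw [h3, ← h2.tsum_eq]
  have hs : Summable fun n : ℕ => 1 / (n : ℝ) ^ (3 / 2 : ℝ) :=
    Real.summable_one_div_nat_rpow.2 (by norm_num)
  have hs2 : HasSum (fun p : ℕ × ℕ => (1 / (p.1 : ℝ) ^ (3 / 2 : ℝ)) *
      (1 / (p.2 : ℝ) ^ (3 / 2 : ℝ))) (ZZ (3 / 2) * ZZ (3 / 2)) := by
    have h := (hs.mul_of_nonneg hs (fun n => by positivity) (fun n => by positivity))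
    have h4 := hs.tsum_mul_tsum hs h
    unfold ZZ
    rw [h4]
    exact h.hasSum
  obtain ⟨W, hW⟩ : ∃ W : ℝ, W = 2 * C * (u ^ A * (X : ℝ) ^ (-(A - 1))) := ⟨_, rfl⟩
  have h5 := tsum_of_norm_bounded (f := fun p => TT u p - if p ∈ PS X then TT u p else 0)
    (hs2.mul_left W) (fun p => by
      by_cases hp : p ∈ PS X
      · rw [if_pos hp, sub_self, norm_zero, hW]
        positivity
      · rw [if_neg hp, sub_zero]
        have hTn : ‖TT u p‖ = |co p u| := by
          unfold TT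
          rw [norm_mul, norm_real, Real.norm_eq_abs, norm_exp]
          have e : (I * ((u * lam p : ℝ) : ℂ)).re = 0 := by simp
          rw [e, Real.exp_zero, mul_one]
        rw [hTn]
        by_cases h0 : p.1 = 0 ∨ p.2 = 0
        · have e0 : ht p = 0 := by
            unfold ht
            rcases h0 with h | h <;> rw [h] <;> simp
          have e1 : co p u = 0 := by
            unfold co
            rw [e0, Real.sqrt_zero, inv_zero, mul_zero, zero_mul]
          rw [e1, abs_zero, hW]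
          positivity
        · push Not at h0
          have m1 : 1 ≤ p.1 := Nat.one_le_iff_ne_zero.2 h0.1
          have k1 : 1 ≤ p.2 := Nat.one_le_iff_ne_zero.2 h0.2
          have m0 : (0 : ℝ) < p.1 := by exact_mod_cast m1
          have k0 : (0 : ℝ) < p.2 := by exact_mod_cast k1
          have hh : 0 < ht p := by unfold ht; positivity
          have hbig : (X : ℝ) ≤ ht p := by
            have h6 : X ≤ p.1 * p.2 := by
              by_contra hcon
              push Not at hcon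
              apply hp
              unfold PS
              rw [Finset.mem_filter, Finset.mem_product, Finset.mem_Icc, Finset.mem_Icc]
              refine ⟨⟨⟨m1, ?_⟩, ⟨k1, ?_⟩⟩, hcon.le⟩
              · exact (Nat.le_mul_of_pos_right _ k1).trans hcon.le
              · exact (Nat.le_mul_of_pos_left _ m1).trans hcon.le
            unfold ht
            exact_mod_cast h6
          have hpi := Real.pi_gt_three
          have hx0 : 0 < 2 * Real.pi * ht p / u := by positivity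
          have hV1 := (hV.1 _ hx0).1
          have hV2 := hVC _ hx0
          have hco : |co p u| = 2 * (√(ht p))⁻¹ * V (2 * Real.pi * ht p / u) := by
            unfold co
            exact abs_of_nonneg (by positivity)
          have hxle : (2 * Real.pi * ht p / u) ^ (-A) ≤ (ht p / u) ^ (-A) := by
            apply Real.rpow_le_rpow_of_nonpos (by positivity) _ (by linarith)
            apply div_le_div_of_nonneg_right _ hu0.le
            nlinarith
          have e2 : (ht p / u) ^ (-A) = ht p ^ (-A) * u ^ A := by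
            rw [Real.div_rpow hh.le hu0.le, Real.rpow_neg hu0.le, div_inv_eq_mul]
          have e3 : (√(ht p))⁻¹ = ht p ^ (-(1 / 2) : ℝ) := by
            rw [Real.sqrt_eq_rpow, ← Real.rpow_neg hh.le]
          have e4 : ht p ^ (-(1 / 2) : ℝ) * ht p ^ (-A) =
              ht p ^ (-(3 / 2) : ℝ) * ht p ^ (-(A - 1)) := by
            rw [← Real.rpow_add hh, ← Real.rpow_add hh]
            congr 1
            ring
          have e5 : ht p ^ (-(A - 1)) ≤ (X : ℝ) ^ (-(A - 1)) :=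
            Real.rpow_le_rpow_of_nonpos hX0 hbig (by linarith)
          have e6 : ht p ^ (-(3 / 2) : ℝ) = (1 / (p.1 : ℝ) ^ (3 / 2 : ℝ)) *
              (1 / (p.2 : ℝ) ^ (3 / 2 : ℝ)) := by
            unfold ht
            rw [Real.rpow_neg (by positivity), Real.mul_rpow m0.le k0.le]
            field_simp
          rw [hco]
          calc 2 * (√(ht p))⁻¹ * V (2 * Real.pi * ht p / u)
              ≤ 2 * (√(ht p))⁻¹ * (C * (ht p / u) ^ (-A)) := by
                gcongr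
                exact hV2.trans (by gcongr)
            _ = 2 * C * u ^ A * (ht p ^ (-(1 / 2) : ℝ) * ht p ^ (-A)) := by
                rw [e2, e3]; ring
            _ = 2 * C * u ^ A * (ht p ^ (-(3 / 2) : ℝ) * ht p ^ (-(A - 1))) := by rw [e4]
            _ ≤ 2 * C * u ^ A * (ht p ^ (-(3 / 2) : ℝ) * (X : ℝ) ^ (-(A - 1))) := by gcongr
            _ = W * ((1 / (p.1 : ℝ) ^ (3 / 2 : ℝ)) * (1 / (p.2 : ℝ) ^ (3 / 2 : ℝ))) := by
                rw [e6, hW]; ring)
  refine h5.trans ?_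
  have h6 : u ^ A * (X : ℝ) ^ (-(A - 1)) ≤ u ^ (-(1 / 2) + ε) := by
    have h7 : (X : ℝ) ^ (-(A - 1)) ≤ (u ^ (1 + ε)) ^ (-(A - 1)) :=
      Real.rpow_le_rpow_of_nonpos (by positivity) hX (by linarith)
    calc u ^ A * (X : ℝ) ^ (-(A - 1)) ≤ u ^ A * (u ^ (1 + ε)) ^ (-(A - 1)) := by gcongr
      _ = u ^ (A + (1 + ε) * (-(A - 1))) := by
          rw [← Real.rpow_mul hu0.le, ← Real.rpow_add hu0]
      _ = u ^ (-(1 / 2) + ε) := by
          congr 1
          nlinarith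
  have h8 : 0 ≤ u ^ (-(1 / 2) + ε) := by positivity
  rw [hW]
  calc 2 * C * (u ^ A * (X : ℝ) ^ (-(A - 1))) * (ZZ (3 / 2) * ZZ (3 / 2))
      ≤ 2 * C * (u ^ (-(1 / 2) + ε)) * (ZZ (3 / 2) * ZZ (3 / 2)) := by gcongr
    _ ≤ (2 * C * ZZ (3 / 2) ^ 2 + 1) * u ^ (-(1 / 2) + ε) := by nlinarith

theorem t_AFE (h1 : S_V) (h2 : S_CHI) : S_AFE := by
  intro ε0 hε0
  obtain ⟨ε, hε⟩ : ∃ ε : ℝ, ε = min ε0 (1 / 4) := ⟨_, rfl⟩
  have hε1 : 0 < ε := by rw [hε]; exact lt_min hε0 (by norm_num)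
  have hε2 : ε ≤ 1 / 4 := by rw [hε]; exact min_le_right _ _
  have hε3 : ε ≤ ε0 := by rw [hε]; exact min_le_left _ _
  obtain ⟨C, hC, hB⟩ := partB h2 (1 / 2 + ε) (by linarith) (by linarith)
  obtain ⟨D, hD, hT⟩ := partD h1 ε hε1 hε2
  refine ⟨C + D, by positivity, fun u X hu hX => ?_⟩
  have hu0 : 0 < u := by linarith
  have hpi := Real.pi_gt_three
  have hX' : u ^ (1 + ε) ≤ X := le_trans
    (Real.rpow_le_rpow_of_exponent_le hu (by linarith)) hX
  have hS := partC h1 u (1 / 2 + ε) hu (by linarith)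
  have k1 := hT u X _ hu hX' hS
  have k2 := hB u hu
  rw [show 1 / 2 + ε - 1 = -(1 / 2) + ε by ring] at k2
  obtain ⟨J, hJ⟩ : ∃ J : ℂ, J = ∫ t : ℝ, F0 u (1 / 2 + ε) t := ⟨_, rfl⟩
  rw [← hJ] at k1 k2
  have hpc : (Real.pi : ℂ) ≠ 0 := by exact_mod_cast Real.pi_ne_zero
  have e1 : (ff u : ℂ) - (Real.pi : ℂ)⁻¹ * J =
      ((2 * Real.pi : ℝ) : ℂ)⁻¹ * (2 * Real.pi * (ff u : ℂ) - 2 * J) := by
    push_cast
    field_simp
  have k3 : ‖(ff u : ℂ) - (Real.pi : ℂ)⁻¹ * J‖ ≤ C * u ^ (-(1 / 2) + ε) := by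
    rw [e1, norm_mul, norm_inv, norm_real, Real.norm_eq_abs, abs_of_pos (by positivity)]
    have h3 : (2 * Real.pi)⁻¹ ≤ 1 := inv_le_one_of_one_le₀ (by linarith)
    calc (2 * Real.pi)⁻¹ * ‖2 * Real.pi * (ff u : ℂ) - 2 * J‖
        ≤ 1 * ‖2 * Real.pi * (ff u : ℂ) - 2 * J‖ := by gcongr
      _ ≤ _ := by rw [one_mul]; exact k2
  have k4 : u ^ (-(1 / 2) + ε) ≤ u ^ (-(1 / 2) + ε0) :=
    Real.rpow_le_rpow_of_exponent_le hu (by linarith)
  calc ‖(ff u : ℂ) - PX X u‖ = ‖((ff u : ℂ) - (Real.pi : ℂ)⁻¹ * J) +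
        ((Real.pi : ℂ)⁻¹ * J - PX X u)‖ := by congr 1; ring
    _ ≤ C * u ^ (-(1 / 2) + ε) + D * u ^ (-(1 / 2) + ε) := (norm_add_le _ _).trans (by gcongr)
    _ = (C + D) * u ^ (-(1 / 2) + ε) := by ring
    _ ≤ (C + D) * u ^ (-(1 / 2) + ε0) := by gcongr

end Pool.Agent.Y891.GP
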